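import Mathlib
import Pool.Agent.H395.Local.Main
import Pool.Graph.R_seed8.Y1.TS.Main
import Pool.Graph.R_pool_sql_team_seeded_3997aac3.Q29.GS.Final

/-!
# `ℓ`-Galois special points with an isogeny factor which has one Frobenius element that satisfies
local conditions on the classes of the embeddings of the CM fields

**Classes.** Let `K i` (`i` in a finite set) be CM fields, `X` the set of all complex embeddings
of all fields `K i` and `x ↦ x̄` the complex conjugation. Two elements `x`, `y` of `X` are
*flipped* if some automorphism of `ℂ` maps one of them to itself and the other one to its
conjugate, or maps `x` to `y` and `y` to `x̄`. The classes are those of the equivalence relation
generated by the pairs which are not flipped (`SameClass`); a class is stable under the complex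
conjugation. For the typical family of CM fields each class is a pair `x`, `x̄`. The fields of the
family are arbitrary: fields which are not independent of each other can have embeddings in the
same class.

**Types.** Let `p` be a prime number, `π i` a Weil number in `K i` all powers of which generate `K
i`. For `x : K i → ℂ` let `q(x)` be twice the difference of the slope of `x(π i)` and the middle
slope (`IsDeviation`). Suppose that every field `K i` has **one** embedding whose class is of one
of the following types (`LocalType`, `LocalTypes`); the type may depend on `i`.

* *Dominated*: for each field with an embedding in the class there is an embedding `z` of this
  field such that `2 |q(z)| > ∑ |q(w)|`, the sum over the `w ≠ z, z̄` **in the class of `z`**, not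
  over all embeddings; or, for some prime number `ℓ`, such that `|q(z)|_ℓ > |q(w)|_ℓ` for these
  `w`. Here one can use arbitrary positive weights of the fields (`DominatedType`).
* *Unitary*: the class consists of translates of `x`, it is the union of a block `R` and of its
  conjugate, `R` has `r ^ k` elements, `r` a prime number, `∑ q ≠ 0` over `R`, and `q = α n + β`
  on `R` with integers `n` whose sum over `R` is not divisible by `r` (`UnitaryType`).
* *Primitive*: the class consists of translates of `x` and has `b` pairs, where `b` is one, or
  prime, or `b = [K i : F]` for a CM subfield `F` such that the automorphisms of `ℂ` act doubly
  transitively on the extensions of an embedding of `F`; and for the CM subfields `F` with `[K i :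
  F] = b` the norm of `π i` to `F` is not supersingular (`PrimitiveType`).
* *Irreducible*: the rational functions on the class which change their sign under complex
  conjugation are an irreducible representation of the automorphisms of `ℂ` which preserve the
  class (`IrreducibleType`).
* Two types that are copied from the library, `OddType` (the class has one pair, a prime number of
  pairs, an odd number of pairs which are permuted doubly transitively, or a power of two and an
  odd permutation; the deviations are odd multiples of one number) and `SumType` (the class has `r
  ^ k` pairs, `r` prime, and the `q(w)` are proportional to integers whose sums over the half
  systems of the class are not divisible by `r`).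

**The question.** Let `x` be a point of the moduli space over a number field, and let `A_x` be
isogenous to `B ^ (r + 1) × C`, where `C` is an **arbitrary** abelian variety, which may be zero.
Let `γ` be a Frobenius element at **one** place of good reduction, the residue field having `p ^
a` elements, such that

* the characteristic polynomial of `γ` on the Tate module `V = V_ℓ (B)` is the product of the
  minimal polynomials of Weil numbers `π i` for `p ^ a` in `K i` which satisfy the hypothesis
  `LocalTypes` (`IsPolarised`; together with the Weil pairing and the semisimplicity theorem of
  Faltings),

* the products of the eigenvalues of `γ` on `W = V_ℓ (C)` are unrelated to the fields `K i`
  (`FormsUnrelated`, `UnrelatedTo`): a function `n` on the complex embeddings of `K i` with `n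
  (conj φ) = - n φ` which is invariant under all automorphisms of `ℂ` that fix a power of such a
  product is zero. This is so if for each embedding `ψ` of `K i` some automorphism which fixes a
  power of all eigenvalues is the complex conjugation on `ψ (K i)`: for instance, if powers of the
  eigenvalues lie in a field linearly disjoint from the normal closures of the `K i`. It is no
  condition if `C = 0`.

Let `y` run through varieties through `x` over which the abelian variety is isogenous to a product
`B_y ^ (r + 1) × C_y` (if `C = 0` and `r = 0` these are **all** varieties through `x`). Then `V`
and `W` are representations of the arithmetic fundamental group `G y` of `y`, and there is a
homomorphism `i y` from the Galois group `D y` of the residue field of `x` to `G y`. A Tate form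
of degree `m` at `x` (on `y`) is a form in `2 m` variables on `V ^ (r + 1) × W` that is multiplied
by the `m`-th power of the cyclotomic character `χ` by a subgroup of finite index of `D y` (of `G
y`). By definition (`IsGaloisSpecial`, library, helper50) `x` is `ℓ`-Galois special with respect
to these `y` if for no `y` all Tate forms at `x` are Tate forms on `y` (`SameGroup`); as the
algebraic monodromy groups are reductive this means that the groups of `x` and `y` are different.

**The theorem** (`ReducesTo`, library). **`x` is `ℓ`-Galois special if and only if, for each `y`,
some endomorphism of `B` does not extend to `B_y` or the algebraic monodromy groups of `C` at `x`
and of `C_y` are different.** The condition for `B` (`FormsExtend`) is formulated with bilinear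
forms instead of endomorphisms. If `C = 0` and `r = 0`, this answers Q1 for the point `x`: the
endomorphisms extend on the Shimura subvariety of PEL type through `x`, so that `x` is `ℓ`-Galois
special if and only if this variety is a point, that is, if `x` is a CM point. In general take for
`y` the products of the variety of PEL type of `B` with the point of `C`: so if `x` is `ℓ`-Galois
special then `B` is CM, and then also the point of `C` is `ℓ`-Galois special. Hence **Q1 for `x`
follows from Q1 for `C`** (these arguments are not formalized).

**What was known.** Q1 for `x` follows from the Mumford-Tate conjecture for `A_x`, if `C = 0`; it
is known in prime dimension, for `End = ℤ` in many dimensions (Serre, Pink), and if the reduction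
at one place is of K3 type (Zarhin). In the library `ArbitraryCofactor` (helper43) treats
cofactors `B` with trivial Rosati involution and without relations of length four, `TypicalFields`
almost all slope types of typical CM fields (with the definition `ReducesTo` used here). New here:
the dominated types (inside of a class, usual or `ℓ`-adic absolute value, with weights), the
unitary type, the primitive and irreducible types for the classes defined by flips, and their
combination for arbitrary families of fields, which need not be independent of each other.

**Examples** (proved in `Pool.Agent.H395.Local.criteria`). For a single CM field `E` and a Weil
number `π` of weight `m` all powers of which generate `E` the hypothesis `LocalTypes` is satisfied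
if `4 |s(ψ) - m / 2| > ∑ |s(φ) - m / 2|` for one embedding `ψ`, the sum over all embeddings, `s`
the slope; and also if `E` contains an imaginary quadratic field `F` such that `[E : F] = r ^ k`
is a power of a prime number `r`, and `π` is ordinary and the number `s` of the embeddings which
agree with one embedding on `F` and at which `π` is a unit is not divisible by `r`, `2 s ≠ r ^ k`
(multiplication by `F` of signature `(s, r ^ k - s)`).

**The proof.** A multiplicative relation between the conjugates of the `π i` gives a function `c`
on `X` with integral values, `c(x̄) = - c(x)` and `∑ c(x) q(τ x) = 0` for all `τ`. The correlation
of two flipped elements vanishes, so that the sum can be restricted to any class (library). One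
has to show that `c = 0` on the class. Dominated type: one moves an element of the class (and of
its translates) where `|c| / t` has its largest value, for the usual or the `ℓ`-adic absolute
value, to the element `z`, and compares the absolute values of the terms. Unitary type: since `∑ q
≠ 0` over `R`, the sum of the values of `c` over `R` is zero, and so `∑ c(x) n(τ x) = 0` for all
`τ` which preserve `R`. If the lattice of these `c` is not zero it contains an element which is
not divisible by `r` and is invariant modulo `r` under a Sylow `r`-subgroup of the group on `R`;
this subgroup is transitive on `R`, hence `c` is constant modulo `r` and `r ∣ ∑ n`. Primitive
type: if `b` is prime, an element of a Sylow subgroup has two orbits of length `b` on the class,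
exchanged by the conjugation, and the cyclotomic polynomial is irreducible. So either all
translates of `q` agree at two different elements of the class, and then a power of `π i` does not
generate `K i`; or the sums of `q` over the translates of the orbit are zero, the orbit is a block
that belongs to a CM subfield `F` with `[K i : F] = b`, and the norm of `π i` to `F` is
supersingular (Kronecker). The doubly transitive case is similar. Irreducible type: clear, as `q`
does not vanish on all translates.

If there are no relations between the `π i` and with the unrelated eigenvalues of `C` then the
Tate forms at `x` are sums of products of Tate forms of degree two on `B` and of Tate forms on `C`
(library); this gives the theorem.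
-/

set_option autoImplicit false

namespace Pool.Agent.Results.MP_09799c_ag.LocalClassTypes

open NumberField Module Pool.Agent.Y1.TS Pool.Agent.H395.Local

/-- **A point with the isogeny factors `B` and `C` is `ℓ`-Galois special if and only if on no variety
through it the endomorphisms of `B` extend and the algebraic monodromy group of `C` is the one at the
point, for all `B` with one Frobenius element whose Weil numbers have classes of local types and all
unrelated `C`.** -/
theorem result (p : ℕ) [Fact p.Prime] (a : ℕ) (I : Type) [Fintype I] (K : I → Type)
    [∀ i, Field (K i)] [∀ i, NumberField (K i)] [∀ i, IsCMField (K i)] (π : ∀ i, K i)
    (hint : ∀ i, IsIntegral ℤ (π i))
    (hw : ∀ i, π i * IsCMField.complexConj (K i) (π i) = (p : K i) ^ a)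
    (hloc : LocalTypes p (fun _ => a) π) : Pool.Agent.Q29.GS.ReducesTo (p := p) a K π :=
  Pool.Agent.Q29.GS.reducesTo (split_of_angle (gen hloc) hw (angle hint hw hloc))

end Pool.Agent.Results.MP_09799c_ag.LocalClassTypes
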