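import Mathlib
import Pool.Agent.H943.LA.Grp

/-!
# Galois special points and division algebras at a prime number

Let `x` be a point of `𝒜_g` over a number field (or a finitely generated field of characteristic zero),
`A` the corresponding abelian variety, given by the period map `per : H → T` (`H = H_1(A, ℚ)`, `T` the
tangent space), and `ρ` the representation of the Galois group `Γ` on the Tate module `ℚ_ℓ ⊗ H`.

Let `U` be a simple abelian subvariety of `A` over the complex numbers, `D` its endomorphism algebra,
`F` the centre of `D`, and `C` the commutant of `D` in the algebra of all endomorphisms of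
`H_1(U, ℚ)`. We say that `U` is of division type at `ℓ` (`IsDivisionSub`) if `ℚ_ℓ ⊗ C` is a product of
division algebras, the degrees of which over their centres are powers of prime numbers (greater than
one). For example, `U` has multiplication by a division algebra `D` of degree `q = p ^ m` over a CM
field `F`, where `dim U = q ^ 2 [F : ℚ] / 2`, and `D_λ` is a division algebra for all places `λ` of
`F` above `ℓ`. There is no condition on the signature of `U`.

Suppose that the simple abelian subvarieties `U` of `A` over `ℂ` have the types of `GoodTypeD`: `U` is
of division type at `ℓ`, or `U` has complex multiplication, or its dimension is one or a prime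
number, or it has one of the types of the library result `NonCoprimeSignatures` of this problem.
Suppose that the `U` are not related by twists (`IsSeparated`); this is always so if all
multiplicities are nonzero. The dimensions, the number and the multiplicities of the `U` are
arbitrary.

Let `Y` be a closed irreducible subvariety of `𝒜_g` through `x` over which the Hodge tensors of `A`
extend, that is, the Mumford-Tate groups `G_Y` and `G_x` are equal. By the theorem of Deligne
Hodge classes on abelian varieties are absolute Hodge classes, so the Hodge tensors are Tate
tensors for the Galois group of the function field of `Y` (`HodgeTensorsAreTate`).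

**Theorem.** For all these `Y` the identity components `G_(ℓ,Y)` and `G_(ℓ,x)` of the Zariski closures
of the images of the Galois groups are equal. So if `x` is `ℓ`-Galois special then all these `Y` are
points. The largest `Y` of this kind is the special subvariety (of Hodge type) given by `G_x`, and it
is a point only if `A` has complex multiplication. In other words, **a point `x` of this kind is
`ℓ`-Galois special only if it is a CM point**, as the conjecture predicts.

For example, let `S` be the special subvariety of `𝒜_g` which parametrizes the abelian varieties of
dimension `q ^ 2 [F : ℚ] / 2` with multiplication by `D` as above, of any signature (a Shimura variety of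
Kottwitz). The commutant of `D` is `D` with the opposite multiplication, so `ℚ_ℓ ⊗ C` is a product of
division algebras or fields for each point `x` of `S`, also if the endomorphism algebra is greater
than `D`.

Hypotheses on the Tate module, all of them known theorems: `IsTateModule` (the Weil pairing,
Faltings, the Hodge-Tate decomposition, Serre-Pink), `TensorSemisimple` (Faltings, Chevalley) and
`HasHomotheties` (Bogomolov). The structure `Subvariety` and the groups `monodromy` are from the
library of helper130, who also proved that the Zariski closure is determined by the Tate forms
(`monodromy_le`). That the Tate tensors are combinations of Hodge tensors is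
`MP_33b3f9_ag.LocalDivisionAlgebras`; it uses the theorem that a Lie algebra which generates a
division algebra of prime power degree (and the same exponent) contains all commutators
(`Pool.Agent.H943.DP.thmA`).
-/

namespace Pool.Agent.Results.MP_09799c_ag.LocalDivisionAlgebraPoints

open Pool.Agent.Y90.St Pool.Agent.Y224.TS.St Pool.Agent.Y91.L Pool.Agent.Y130.GS TensorProduct
open Pool.Agent.H943.LA (GoodTypeD monodromy_leD)

/-- **Galois special points.** Let `x` be a point of `𝒜_g` (`g ≥ 1`) such that the simple factors of
the abelian variety have the types of `GoodTypeD` (for instance the division type at `ℓ`) and are not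
related by twists. Then for all closed irreducible subvarieties `Y` through `x` on which the Hodge
tensors at `x` remain Tate tensors, the groups `G_(ℓ,Y)` and `G_(ℓ,x)` are equal, and if `x` is
`ℓ`-Galois special then all these `Y` have dimension zero. -/
theorem result {H T : Type} [AddCommGroup H] [Module ℚ H] [Nontrivial H] [FiniteDimensional ℚ H]
    [AddCommGroup T] [Module ℂ T] (per : H →+ T) (hX : IsAV per)
    (E : H → H → ℚ) (hE : IsPolarization per E)
    (ℓ : ℕ) [Fact ℓ.Prime] [Algebra ℚ_[ℓ] ℂ] [Algebra.IsAlgebraic ℚ_[ℓ] ℂ]
    (hs : GoodTypeD ℚ_[ℓ] per) (ht : Pool.Agent.Y4.Q.IsSeparated per)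
    {Γ : Type} [Group Γ] (ρ : Representation ℚ_[ℓ] Γ (ℚ_[ℓ] ⊗[ℚ] H)) (χ : Γ →* ℚ_[ℓ])
    (hρ : IsTateModule per E ρ χ) (hB : HasHomotheties ρ) (hss : TensorSemisimple ρ)
    -- the closed irreducible subvarieties through `x`
    (𝒴 : Set (Subvariety ρ χ)) :
    (∀ Y ∈ 𝒴, HodgeTensorsAreTate per Y.rep Y.mult → monodromy Y.rep = monodromy ρ) ∧
    (IsGaloisSpecial ρ χ 𝒴 → ∀ Y ∈ 𝒴, HodgeTensorsAreTate per Y.rep Y.mult → Y.dim = 0) := by
  have h : ∀ Y : Subvariety ρ χ, HodgeTensorsAreTate per Y.rep Y.mult →
      monodromy Y.rep = monodromy ρ := fun Y hY =>
    Set.Subset.antisymm (monodromy_leD hX hs ht hE hρ hB hss hY) (monodromy_ge Y)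
  refine ⟨fun Y _ hY => h Y hY, fun hx Y hY hYt => ?_⟩
  by_contra h0
  exact hx Y hY (Nat.pos_of_ne_zero h0) (h Y hYt)

end Pool.Agent.Results.MP_09799c_ag.LocalDivisionAlgebraPoints
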