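import Mathlib
import Pool.Agent.H943.KT.Gsp

/-!
# Galois special points and simple Shimura varieties

Let `x` be a point of `𝒜_g` over a number field (or over a finitely generated field of characteristic
zero), and let `A` be the corresponding abelian variety. Suppose that over `ℂ` it is, up to isogeny,
the product of abelian varieties `A i` with actions of division algebras `D i` of degree `n i` over
their centres, and let `F i` be a CM field contained in the centre of `D i`. Then
`dim (A i) = [F i : ℚ] (n i) (N i) / 2` for some `N i`, and for each embedding `τ` of `F i` in `ℂ` the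
field `F i` acts through `τ` on a subspace of dimension `n i * t i τ` of the tangent space of `A i`;
we have `t i τ + t i τ' = N i` if `τ'` is the complex conjugate of `τ`. We assume that `A i` is
simple as an abelian variety with an action of `D i`. **Nothing else is assumed on the `A i` and
their endomorphism algebras: they are not supposed to be generic in any sense, they may be simple or
not simple, of CM type or not.** The conditions on the factors and on the independence of the
factors are stated below; in particular `x` may be **any point of any Shimura variety of Harris and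
Taylor** with `dim A ≥ 3 n`.

Let `Y` be a closed irreducible subvariety of `𝒜_g` through `x`, and let `G_(ℓ,Y)` and `G_(ℓ,x)` be the
identity components of the Zariski closures of the images of the Galois groups. We prove the
following, **for every prime number `ℓ`**.

1. `G_(ℓ,Y) = G_(ℓ,x)` if and only if all endomorphisms of `A` (over `ℂ`) extend to endomorphisms of
   the abelian variety over the geometric generic point of `Y`, that is, if they commute with a
   subgroup of finite index of the Galois group of the function field of `Y`
   (`EndomorphismsExtend`).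
2. So `x` is `ℓ`-Galois special if and only if all these `Y` are points. This condition does not
   depend on `ℓ`.
3. The largest `Y` as in (1) is the Shimura subvariety of PEL type of the abelian varieties to which
   all endomorphisms of `A` extend. Its dimension is the sum of the products of the multiplicities of
   the pairs of conjugate characters of the centre of the endomorphism algebra. So it is a point
   only if `A` has complex multiplication (`ContainsPEL`), and we get: **if `x` is `ℓ`-Galois
   special, then `x` is a CM point**. This is the conjecture for the point `x`.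

The known facts on `𝒜_g` enter in the following way: `Subvariety` (library of helper130) contains
the Galois data of `Y` and the decomposition group of the point `x`; and the universal abelian variety
is polarized (`HasKnownProperties`).

**The factors.** Either `N i ≥ 3` and one of the conditions (a), (b), (c) is true, or `N i = 1` and
`t i` is a nondegenerate CM type (for instance, `A i` is an elliptic curve with complex
multiplication).

* (a) For one embedding `τ₀` the number `t i τ₀` is prime to `N i`, and `N i` is a power of a prime
  number or `t i τ₀ ≤ 2`, and `t i τ` is equal to `0` or to `N i` for all `τ` different from `τ₀` and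
  its complex conjugate (the signature is definite at all places except one).
* (b) `N i` is a power of an odd prime number `p`, and `t i τ` is divisible by `p` except for one
  pair of conjugate embeddings.
* (c) More generally, `N i` is a power of an odd prime number `p`, and the translates of `t i` modulo
  `p` by the automorphisms of `ℂ` separate the odd functions: each function `L` on the set of the
  embeddings with values in `ℤ / p` such that `L τ' = - L τ` and `∑ τ, t i (σ τ) L τ = 0` for all
  `σ` is zero.

**The independence of the factors.** The numbers `N i` are pairwise coprime or powers of the same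
odd prime number, and one of the following conditions is satisfied.

* There is only one factor, and `N` is prime to the degree of the Galois closure of `F` over `F`
  (there is no condition if `F` is a Galois extension of `ℚ`).
* The `F i` are imaginary quadratic fields, pairwise not isomorphic, and the `N i` are odd. So we
  have for example all products of powers of simple abelian varieties of odd prime power dimensions
  `N i` with multiplication by pairwise different imaginary quadratic fields and signatures prime to
  `N i`.
* In general: `N i` is prime to the degree over `F i` of the Galois closure of the compositum of all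
  the `F k`; the translates of `t`, as a function on the disjoint union of the sets of the
  embeddings of the `F i`, separate the complex odd functions; and if `p` divides two of the `N i`,
  then the translates of `t` modulo `p` separate the odd functions modulo `p` on the union of the sets
  of the embeddings of the `F i` for which `p` divides `N i`.

The condition of simplicity holds in the following two cases.

* The dimension of `D i` over `ℚ` is `2 dim (A i)`: then the rational homology of `A i` is a vector
  space of dimension one over `D i`. These abelian varieties are parametrized by the simple Shimura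
  varieties of Kottwitz and Harris-Taylor (of fake unitary groups). In the case of Harris and Taylor
  the centre of `D i` is the compositum of an imaginary quadratic field `K` and a totally real field
  `F'`, and the signature is `(1, n i - 1)` at one real place of `F'` and `(0, n i)` at the others.
  One takes `F i = K`; then `N i = dim (A i) / n i`, and `t i` has the values `1` and `N i - 1`.
* `A i` is simple over `ℂ`: for instance `D i = F i`, `n i = 1`, all simple abelian varieties of
  dimension `N` with multiplication by an imaginary quadratic field of signature `(t, N - t)`, where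
  `t` is prime to `N`, and `N` is a power of a prime number or `t ≤ 2`; and all simple abelian
  varieties of dimension `[F : ℚ] N / 2` with multiplication by `F` with one indefinite place.

The abelian variety is given by its period matrix `Z`: `A = ℂ ^ g / (ℤ ^ g + Z ℤ ^ g)`, where `Z` is
symmetric with positive definite imaginary part; these are the points of `𝒜_g`. The factors of `A`
are given by the idempotent endomorphisms. The properties of the Tate module which are used
(`IsTateModule`: the Weil pairing, the theorem of Faltings, the Hodge-Tate decomposition, the theorem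
of Serre and Pink on the generation of the Lie algebra; `TensorSemisimple`: Faltings, Chevalley;
`HasHomotheties`: Bogomolov) are known theorems.

The proof. The Tate tensors on `A` are the combinations of the products of the forms `ψ(a x, y)`,
`a ∈ End (A)`, `ψ` the Riemann form (`Pool.Agent.H943.KT.tate_iff`, from
`MP_e965d0_ag.SimpleShimuraVarieties`, same run). If the endomorphisms extend to `Y`, then they are
Tate tensors over `Y`; the Zariski closure is determined by the Tate tensors (`monodromy_le`,
library), and `G_(ℓ,x) ⊆ G_(ℓ,Y)` by specialization. For the converse, a subgroup of finite index of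
the Galois group of the function field of `Y` is mapped into `G_(ℓ,Y)`, since the polynomial ring is
noetherian, and `G_(ℓ,x)` commutes with the endomorphisms of `A`.
-/

set_option autoImplicit false

namespace Pool.Agent.Results.MP_09799c_ag.SimpleShimuraVarieties

open Module NumberField TensorProduct Pool.Agent.H204R3.CM Pool.Agent.H194R3.CM
  Pool.Agent.W437.HC Pool.Agent.W437.HD Pool.Agent.Y130.GS
open Pool.Agent.Y91.L (HasHomotheties)

/-- Rational matrices of size `2 g`. They act on the rational homology `ℚ ^ (2 g)` of the abelian
variety `A = ℂ ^ g / (ℤ ^ g + Z ℤ ^ g)`, which is mapped to the tangent space `ℂ ^ g` by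
`perOne Z : (a, b) ↦ a + Z b`. -/
abbrev Mat (g : ℕ) : Type := Matrix (Fin g ⊕ Fin g) (Fin g ⊕ Fin g) ℚ

variable {g : ℕ} (Z : Matrix (Fin g) (Fin g) ℂ)

/-- The complex matrix `M` is the action on the tangent space of the endomorphism of `A` (up to
isogeny) given by the rational matrix `x`. -/
def ActsOnTangent (x : Mat g) (M : Matrix (Fin g) (Fin g) ℂ) : Prop :=
  ∀ w : Fin g ⊕ Fin g → ℚ, perOne Z (x.mulVec w) = M.mulVec (perOne Z w)

/-- The rational matrix `x` is an endomorphism of `A` (up to isogeny). -/
def IsEndomorphism (x : Mat g) : Prop := ∃ M, ActsOnTangent Z x M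

/-! ### One factor

An action of a division algebra `D` on a factor of `A` is given by a homomorphism `ρ` from `D` to the
rational matrices which does not necessarily respect the units: `ρ 1` is an idempotent endomorphism
of `A`, and the factor is the image of `ρ 1`. -/

section

variable {D : Type} [DivisionRing D] {F : Type} [Field F] [NumberField F]

/-- The tangent vectors of the factor `(ρ 1) A` of `A` on which the field `F`, which acts on the
factor by `ρ ∘ j`, acts through the embedding `τ`. -/
def eigenspace (ρ : D →ₙ+* Mat g) (j : F →+* D) (τ : F →+* ℂ) : Submodule ℂ (Fin g → ℂ) where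
  carrier := {u | ∀ a M, ActsOnTangent Z (ρ (j a)) M → M.mulVec u = τ a • u}
  zero_mem' := fun a M _ => by rw [Matrix.mulVec_zero, smul_zero]
  add_mem' := fun {x y} hx hy a M h => by rw [Matrix.mulVec_add, hx a M h, hy a M h, smul_add]
  smul_mem' := fun c x hx a M h => by rw [Matrix.mulVec_smul, hx a M h, smul_comm]

/-- The division algebra `D` of degree `n` (so the dimension of `D` over its centre is `n ^ 2`) acts
by `ρ` on the factor `(ρ 1) A`, its centre contains the field `F` (embedded by `j`), twice the
dimension of the factor is `[F : ℚ] n N`, and the embedding `τ` of `F` occurs in the tangent space of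
the factor with multiplicity `n * t τ`. -/
structure HasSignature [Algebra ℚ D] (ρ : D →ₙ+* Mat g) (j : F →+* D) (n N : ℕ)
    (t : (F →+* ℂ) → ℕ) : Prop where
  endo : ∀ x, IsEndomorphism Z (ρ x)
  degree : finrank ℚ D = n ^ 2 * finrank ℚ (Subalgebra.center ℚ D)
  central : ∀ a x, j a * x = x * j a
  dim : (ρ 1).rank = finrank ℚ F * (n * N)
  signature : ∀ τ, finrank ℂ (eigenspace Z ρ j τ) = n * t τ

/-- The factor `B = (ρ 1) A` is simple as an abelian variety with an action of `D`: all nonzero
endomorphisms `x` of `B` which commute with `D` are invertible (up to isogeny). This holds if `B` is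
simple, since then all nonzero endomorphisms are invertible. -/
def IsSimpleOver (ρ : D →ₙ+* Mat g) : Prop :=
  ∀ x, IsEndomorphism Z x → ρ 1 * x = x → x * ρ 1 = x → (∀ y, x * ρ y = ρ y * x) → x ≠ 0 →
    ∃ y, y * x = ρ 1

/-- The complex conjugate of an embedding. -/
noncomputable def conj (τ : F →+* ℂ) : F →+* ℂ := (starRingEnd ℂ).comp τ

/-- The translate of an embedding by an automorphism of `ℂ`. -/
def translate (σ : ℂ ≃+* ℂ) (τ : F →+* ℂ) : F →+* ℂ := (σ : ℂ →+* ℂ).comp τ

/-- The translates of `t` separate the odd functions with values in the ring `R`. If `N = 1`, then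
`t` is the indicator function of a CM type, and this condition for `R = ℂ` means that the CM type is
nondegenerate. -/
def Separates (R : Type) [CommRing R] (t : (F →+* ℂ) → ℕ) : Prop :=
  ∀ L : (F →+* ℂ) → R, (∀ τ, L (conj τ) = - L τ) →
    (∀ σ : ℂ ≃+* ℂ, ∑ τ, (t (translate σ τ) : R) * L τ = 0) → L = 0

/-- The conditions on the signature of one factor for `N ≥ 3`. (a) There is an embedding `τ₀` such
that `t τ₀` is prime to `N`, `t τ₀ ≤ 2` or `N` is a power of a prime number, and `t` is `0` or `N`
outside `τ₀` and its complex conjugate. (b) `N` is a power of an odd prime number `p`, and `t` is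
divisible by `p` outside one pair of conjugate embeddings and prime to `p` there. (c) `N` is a power
of an odd prime number `p`, and the translates of `t` modulo `p` separate the odd functions.
For `N = 1`: the CM type `t` is nondegenerate. -/
def IsGood (N : ℕ) (t : (F →+* ℂ) → ℕ) : Prop :=
  (3 ≤ N ∧ ((∃ τ₀ : F →+* ℂ, Nat.Coprime (t τ₀) N ∧ (t τ₀ ≤ 2 ∨ IsPrimePow N) ∧
      ∀ τ, τ ≠ τ₀ → τ ≠ conj τ₀ → t τ = 0 ∨ t τ = N) ∨
    (∃ p c : ℕ, p.Prime ∧ p ≠ 2 ∧ N = p ^ c ∧
      ((∃ τ₀ : F →+* ℂ, ¬ p ∣ t τ₀ ∧ ∀ τ, τ ≠ τ₀ → τ ≠ conj τ₀ → p ∣ t τ) ∨
        Separates (ZMod p) t)))) ∨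
  (N = 1 ∧ Separates ℂ t)

end

/-! ### The product -/

section

variable {ι : Type} {F : ι → Type} [∀ i, Field (F i)]

/-- The disjoint union of the sets of the complex embeddings of the fields `F i`. -/
abbrev Embeddings (F : ι → Type) [∀ i, Field (F i)] : Type := Σ i, (F i →+* ℂ)

/-- The group of the permutations of the embeddings of the fields `F i` in `ℂ` which are induced by
the automorphisms of `ℂ`. It is isomorphic to the Galois group of the Galois closure of the
compositum of the fields `F i`. -/
def galoisGroup (F : ι → Type) [∀ i, Field (F i)] : Subgroup (Equiv.Perm (Embeddings F)) where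
  carrier := {π | ∃ σ : ℂ ≃+* ℂ, ∀ y, π y = ⟨y.1, translate σ y.2⟩}
  mul_mem' := by
    rintro π π' ⟨σ, hσ⟩ ⟨σ', hσ'⟩
    exact ⟨σ'.trans σ, fun y => by rw [Equiv.Perm.mul_apply, hσ', hσ]; rfl⟩
  one_mem' := ⟨RingEquiv.refl ℂ, fun y => rfl⟩
  inv_mem' := by
    rintro π ⟨σ, hσ⟩
    refine ⟨σ.symm, fun y => ?_⟩
    rw [Equiv.Perm.inv_eq_iff_eq, hσ]
    obtain ⟨i, τ⟩ := y
    refine congrArg (Sigma.mk i) ?_
    ext x
    exact (σ.apply_symm_apply (τ x)).symm

/-- The order of the stabilizer of the embedding `y` of `F i` in the Galois group of the Galois
closure of the compositum of the fields. It is the degree of this Galois closure over `F i`. -/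
noncomputable def closureDegree (y : Embeddings F) : ℕ :=
  Nat.card {π : galoisGroup F // (π : Equiv.Perm (Embeddings F)) y = y}

/-- The translates of `t` separate the odd functions with values in the ring `R` on the union of the
sets of the embeddings of the fields `F i` for the indices `i` in `S`. -/
def SeparatesOn [Fintype ι] [∀ i, NumberField (F i)] (R : Type) [CommRing R] (S : ι → Prop)
    (t : ∀ i, (F i →+* ℂ) → ℕ) : Prop :=
  ∀ L : Embeddings F → R, (∀ y, L ⟨y.1, conj y.2⟩ = - L y) → (∀ y, ¬ S y.1 → L y = 0) →
    (∀ σ : ℂ ≃+* ℂ, ∑ y : Embeddings F, (t y.1 (translate σ y.2) : R) * L y = 0) → L = 0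

/-- The independence of the factors. The numbers `N i` are pairwise coprime or powers of the same
odd prime number, and: either `N i` is prime to the degree over `F i` of the Galois closure of the
compositum of the fields; if there are several factors, then the translates of `t` separate the
complex odd functions; if an odd prime number `p` divides `N i` for several factors, then the
translates of `t` modulo `p` separate the odd functions modulo `p` for these factors; or the `F i`
are pairwise non-isomorphic imaginary quadratic fields, and the `N i` are odd. -/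
structure IsIndependent [Fintype ι] [∀ i, NumberField (F i)] (N : ι → ℕ)
    (t : ∀ i, (F i →+* ℂ) → ℕ) : Prop where
  pairs : ∀ i k, i ≠ k → Nat.Coprime (N i) (N k) ∨
    ∃ p : ℕ, p.Prime ∧ p ≠ 2 ∧ (∃ a, N i = p ^ a) ∧ ∃ b, N k = p ^ b
  fields : ((∀ y : Embeddings F, Nat.Coprime (N y.1) (closureDegree y)) ∧
      ((∃ i k : ι, i ≠ k) → SeparatesOn ℂ (fun _ => True) t) ∧
      ∀ p : ℕ, p.Prime → p ≠ 2 → (∃ i k : ι, i ≠ k ∧ p ∣ N i ∧ p ∣ N k) →
        SeparatesOn (ZMod p) (fun i => p ∣ N i) t) ∨
    ((∀ i, finrank ℚ (F i) = 2) ∧ (∀ i k, i ≠ k → IsEmpty (F i ≃+* F k)) ∧ ∀ i, ¬ 2 ∣ N i)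

end

/-- The assumptions of the theorem. The period matrix is symmetric with positive definite imaginary
part, and `A` is the product, up to isogeny, of the abelian varieties `A i = (ρ i 1) A` with actions
`ρ i` of division algebras `D i` of degree `n i` whose centres contain the CM fields `F i`, with
`2 dim (A i) = [F i : ℚ] (n i) (N i)`, and such that `F i` acts on the tangent space of `A i` with
the multiplicities `n i * t i τ`. Each `A i` is simple over `D i`, or the dimension of `D i` is
`2 dim (A i)` (this is the case of the simple Shimura varieties), and the signatures satisfy the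
conditions of `IsGood` and of `IsIndependent`. -/
structure IsShimuraProduct {ι : Type} [Fintype ι] {D : ι → Type} [∀ i, DivisionRing (D i)]
    [∀ i, Algebra ℚ (D i)] {F : ι → Type} [∀ i, Field (F i)] [∀ i, NumberField (F i)]
    (ρ : ∀ i, D i →ₙ+* Mat g) (j : ∀ i, F i →+* D i) (n N : ι → ℕ)
    (t : ∀ i, (F i →+* ℂ) → ℕ) : Prop where
  symm : Z.transpose = Z
  pos : (Z.map Complex.im).PosDef
  orth : ∀ i k, i ≠ k → ρ i 1 * ρ k 1 = 0
  sum : ∑ i, ρ i 1 = 1
  factor : ∀ i, HasSignature Z (ρ i) (j i) (n i) (N i) (t i)
  simple : ∀ i, IsSimpleOver Z (ρ i) ∨ finrank ℚ (D i) = (ρ i 1).rank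
  good : ∀ i, IsGood (N i) (t i)
  ind : IsIndependent N t

/-! ### The Tate module -/

/-- The Riemann form of `A = ℂ ^ g / (ℤ ^ g + Z ℤ ^ g)` on the rational homology `ℚ ^ (2 g)`: the
standard symplectic form. -/
def riemannForm (g : ℕ) (v w : Fin g ⊕ Fin g → ℚ) : ℚ :=
  ∑ i, (w (Sum.inl i) * v (Sum.inr i) - w (Sum.inr i) * v (Sum.inl i))

/-- The Tate module `ℚ_ℓ ⊗ H_1 (A, ℚ)`. -/
abbrev TateModule (ℓ g : ℕ) [Fact ℓ.Prime] : Type := ℚ_[ℓ] ⊗[ℚ] (Fin g ⊕ Fin g → ℚ)

section

variable {K : Type} [Field K] {V : Type} [AddCommGroup V] [Module K V] {Γ : Type} [Group Γ]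

/-- The endomorphism `f` of `V` commutes with a subgroup of finite index of the group `Γ`. -/
def CommutesWith (H : Representation K Γ V) (f : V →ₗ[K] V) : Prop :=
  ∃ Δ : Subgroup Γ, Δ.FiniteIndex ∧ ∀ s ∈ Δ, ∀ v, H s (f v) = f (H s v)

/-- The form `ω` is multiplied by the character `μ`. -/
def Preserves (H : Representation K Γ V) (μ : Γ →* K) (ω : V →ₗ[K] V →ₗ[K] K) : Prop :=
  ∀ s u v, ω (H s u) (H s v) = μ s * ω u v

/-- The groups `G_(ℓ,Y)` and `G_(ℓ,x)` are equal. -/
def SameGroup [FiniteDimensional K V] {rep : Representation K Γ V} {χ : Γ →* K}
    (Y : Subvariety rep χ) : Prop :=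
  monodromy Y.rep = monodromy rep

end

/-- The endomorphism of the Tate module given by the rational matrix `a`. -/
noncomputable def onTate (ℓ : ℕ) [Fact ℓ.Prime] (a : Mat g) :
    TateModule ℓ g →ₗ[ℚ_[ℓ]] TateModule ℓ g :=
  (Matrix.mulVecLin a).baseChange ℚ_[ℓ]

/-- The bilinear form `ω` on the Tate module is the extension of the Riemann form. -/
def IsExtension {ℓ : ℕ} [Fact ℓ.Prime]
    (ω : TateModule ℓ g →ₗ[ℚ_[ℓ]] TateModule ℓ g →ₗ[ℚ_[ℓ]] ℚ_[ℓ]) : Prop :=
  ∀ u v : Fin g ⊕ Fin g → ℚ, ω (1 ⊗ₜ u) (1 ⊗ₜ v) = ((riemannForm g u v : ℚ) : ℚ_[ℓ])

/-- The Galois data of the point `x` of `𝒜_g`: the Galois group `Γ` of a field of definition, its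
representation `rep` on the Tate module `ℚ_ℓ ⊗ H_1 (A, ℚ)`, the cyclotomic character `χ`, and the set
`S` of all closed irreducible subvarieties `Y` of `𝒜_g` through `x` (with their Galois data, see
`Subvariety`). -/
structure Point (ℓ g : ℕ) [Fact ℓ.Prime] where
  Γ : Type
  [group : Group Γ]
  rep : Representation ℚ_[ℓ] Γ (TateModule ℓ g)
  χ : Γ →* ℚ_[ℓ]
  S : Set (Subvariety rep χ)

attribute [instance] Point.group

/-- The known properties of the representation on the Tate module of `A`: the Weil pairing, the
theorem of Faltings, the Hodge-Tate decomposition, the theorem of Serre and Pink (`IsTateModule`;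
`ℂ` is identified with an algebraic closure of `ℚ_ℓ`), the theorem of Bogomolov (`HasHomotheties`),
and the semisimplicity of the tensor powers (Faltings, Chevalley: `TensorSemisimple`); and the
universal abelian variety is polarized, so the Riemann form is multiplied by the cyclotomic
character under the Galois group of the function field of each `Y`. -/
structure HasKnownProperties {ℓ : ℕ} [Fact ℓ.Prime] [Algebra ℚ_[ℓ] ℂ] (x : Point ℓ g) : Prop where
  tate : Pool.Agent.Y224.TS.St.IsTateModule (perOne Z) (riemannForm g) x.rep x.χ
  homotheties : HasHomotheties x.rep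
  semisimple : TensorSemisimple x.rep
  polarized : ∃ ω, IsExtension ω ∧ ∀ Y ∈ x.S, Preserves Y.rep Y.mult ω

/-- All endomorphisms of `A` extend to the abelian variety over the geometric generic point of `Y`:
each endomorphism of `A` commutes with a subgroup of finite index of the Galois group of the
function field of `Y`. -/
def EndomorphismsExtend {ℓ : ℕ} [Fact ℓ.Prime] (x : Point ℓ g) (Y : Subvariety x.rep x.χ) : Prop :=
  ∀ a : Mat g, IsEndomorphism Z a → CommutesWith Y.rep (onTate ℓ a)

/-- For all `Y` the groups `G_(ℓ,Y)` and `G_(ℓ,x)` are equal if and only if all endomorphisms of `A`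
extend to `Y`. -/
def SameGroupIff {ℓ : ℕ} [Fact ℓ.Prime] (x : Point ℓ g) : Prop :=
  ∀ Y ∈ x.S, SameGroup Y ↔ EndomorphismsExtend Z x Y

/-- The point `x` is `ℓ`-Galois special: there is no `Y` of positive dimension with the same
group. -/
def IsSpecial {ℓ : ℕ} [Fact ℓ.Prime] (x : Point ℓ g) : Prop := IsGaloisSpecial x.rep x.χ x.S

/-- All `Y` to which all endomorphisms of `A` extend are points. -/
def IsIsolated {ℓ : ℕ} [Fact ℓ.Prime] (x : Point ℓ g) : Prop :=
  ∀ Y ∈ x.S, EndomorphismsExtend Z x Y → Y.dim = 0

/-- The abelian variety `A` has complex multiplication (`x` is a CM point): the rational matrices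
which commute with all endomorphisms commute with each other. -/
def IsCM : Prop :=
  ∀ X Y : Mat g, (∀ a, IsEndomorphism Z a → a * X = X * a) →
    (∀ a, IsEndomorphism Z a → a * Y = Y * a) → X * Y = Y * X

/-- Among the subvarieties `Y` through `x` is the Shimura subvariety of PEL type, to which all
endomorphisms of `A` extend, and it is a point only if `x` is a CM point (Shimura: its dimension is
the sum of the products of the multiplicities of the pairs of conjugate characters). -/
def ContainsPEL {ℓ : ℕ} [Fact ℓ.Prime] (x : Point ℓ g) : Prop :=
  ∃ Y ∈ x.S, EndomorphismsExtend Z x Y ∧ (Y.dim = 0 → IsCM Z)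

/-- **Theorem.** Let `x` be a point of `𝒜_g`, `g ≥ 1`, over a finitely generated field of
characteristic zero, and let `A` be the abelian variety, given over `ℂ` by the period matrix `Z`.
Suppose that `A` is a product of points of simple Shimura varieties in the sense of
`IsShimuraProduct`.

1. For each closed irreducible subvariety `Y` of `𝒜_g` through `x` the groups `G_(ℓ,Y)` and
   `G_(ℓ,x)` are equal if and only if all endomorphisms of `A` extend to `Y`.
2. `x` is `ℓ`-Galois special if and only if all `Y` to which all endomorphisms of `A` extend are
   points.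
3. So if the Shimura subvariety of PEL type is among the `Y`, and `x` is `ℓ`-Galois special, then `x`
   is a CM point. -/
theorem result {ι : Type} [Fintype ι] {D : ι → Type} [∀ i, DivisionRing (D i)]
    [∀ i, Algebra ℚ (D i)] [∀ i, Module.Finite ℚ (D i)] {F : ι → Type} [∀ i, Field (F i)]
    [∀ i, NumberField (F i)] [∀ i, IsCMField (F i)] (ρ : ∀ i, D i →ₙ+* Mat g)
    (j : ∀ i, F i →+* D i) (n N : ι → ℕ) (t : ∀ i, (F i →+* ℂ) → ℕ) (hg : 0 < g)
    (hA : IsShimuraProduct Z ρ j n N t)
    (ℓ : ℕ) [Fact ℓ.Prime] [Algebra ℚ_[ℓ] ℂ] [Algebra.IsAlgebraic ℚ_[ℓ] ℂ]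
    (x : Point ℓ g) (hx : HasKnownProperties Z x) :
    SameGroupIff Z x ∧ (IsSpecial x ↔ IsIsolated Z x) ∧
      (ContainsPEL Z x → IsSpecial x → IsCM Z) := by
  obtain ⟨hsymm, hpos, horth, hsum, hD, hsimple, hgood, hind⟩ := hA
  have hB : ∀ i, Pool.Agent.H943.KP.Bk Z (ρ i) := fun i =>
    ⟨(hD i).endo, fun x hx h1 h2 h3 h0 => (hsimple i).elim (fun h => h x hx h1 h2 h3 h0)
      fun h => Pool.Agent.H943.KP.com_of_dim (ρ i) h h1 h2 h3 h0⟩
  have hgal : galoisGroup F = (@MulAction.toPermHom (RingAut ℂ) (Embeddings F) _
      (Pool.Agent.H943.KP.emAct F)).range := by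
    ext π
    constructor
    · rintro ⟨σ, hσ⟩
      exact ⟨σ, Equiv.ext fun y => (hσ y).symm⟩
    · rintro ⟨σ, rfl⟩
      exact ⟨σ, fun y => rfl⟩
  have M : Pool.Agent.Y4.K.Pol Z := ⟨hsymm, hpos⟩
  obtain ⟨c1, c2, c3⟩ := Pool.Agent.H943.KT.conds_all M hB horth hsum
    (fun i => (hD i).central) n N t (fun i => (hD i).degree) (fun i => (hD i).dim)
    (fun i => (hD i).signature) hgood hind.pairs (by
      rcases hind.fields with ⟨h1, h2, h3⟩ | h
      · refine Or.inl ⟨fun y => ?_, h2, h3⟩
        have h8 := h1 y
        rw [closureDegree, hgal] at h8
        exact h8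
      · exact Or.inr h)
  have hform : riemannForm g = Pool.Agent.H943.KT.riem g := by
    funext v w
    rw [riemannForm, Pool.Agent.H943.KT.riem_eq]
  obtain ⟨htate, hhom, hss, ω, hω, hωY⟩ := hx
  rw [hform] at htate
  have hone : ∀ Y ∈ x.S, SameGroup Y ↔ EndomorphismsExtend Z x Y := by
    intro Y hY
    exact Pool.Agent.H943.KT.mono_iff hg M c1 c2 c3 htate hhom hss
      (fun u v => by rw [← hform]; exact hω u v) Y (hωY Y hY)
  have htwo : IsSpecial x ↔ IsIsolated Z x := by
    constructor
    · intro h Y hY hE
      by_contra h0
      exact h Y hY (Nat.pos_of_ne_zero h0) ((hone Y hY).2 hE)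
    · intro h Y hY h0 heq
      exact h0.ne' (h Y hY ((hone Y hY).1 heq))
  refine ⟨hone, htwo, ?_⟩
  rintro ⟨Y, hY, hE, hcm⟩ hsp
  exact hcm (htwo.1 hsp Y hY hE)

end Pool.Agent.Results.MP_09799c_ag.SimpleShimuraVarieties
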