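import Mathlib
import Pool.Agent.H298.Core.WeilRel
import Pool.Graph.R_seed8.Y1.TS.Main
import Pool.Graph.R_pool_sql_team_seeded_3997aac3.Q29.GS.Final
import Pool.Agent.H298.Core.Double

/-!
# ℓ-Galois special points and abelian varieties with one Frobenius element in CM fields with
irreducible odd part or primitive core

**In short.** Let `K` be a CM field of degree `2 g`, `K₀` its maximal real subfield and `2 ^ v`, `1
≤ v ≤ g`, the degree of the Galois closure of `K` over the Galois closure of `K₀` (typically `v =
g`). The theorem is for the Weil numbers `π` all powers of which generate `K`, in the following
cases (`FieldCriteria`), among others: **(a) `v > g / 3`; (b) the slopes of `π` have odd
denominators, for example `π` is ordinary, and `v > g / 4`, or `g` is the product of two prime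
numbers and `v > 1`, or `g` is prime, or `K` has few divisors in the sense of `FewDivisors`; (c) the
Galois group of `K₀` is doubly transitive, and `g` is odd, or `g - 1` is a prime number, or at least
`g` is none of the numbers `10, 16, 26, 28, 36, …` (`TwoGraphDegree`); or it is triply transitive,
for example the symmetric group, or the alternating group if `g ≥ 5`, `g ≥ 3`; and no norm of `π` to
an imaginary quadratic field is supersingular** (this is
so if `g` is odd and `π` is ordinary). The general hypothesis (`IsCoreWeil`) is explained below.

**Cores.** Let `X` be the set of the complex embeddings of the CM field `K`, `[K : ℚ] = 2 g`. The
automorphisms of `ℂ` which map all elements of `X` to themselves or to their complex conjugates are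
called sign changes. The first core of `φ : X` consists of the `ψ : X` which are moved by the same
sign changes as `φ`. If one uses all automorphisms which map the elements of the first core to
themselves or to their conjugates, one obtains the second core, inside of the first one, and so on
(`coreOf`). The cores of the same index have the same number `2 c` of elements, `c` divides `g`, and
the smallest such number `c` is the core number of `K`. It satisfies `c ≤ g / v`, and if a prime
number `q` divides the discriminant of `K`, but not the discriminant of the maximal real subfield,
then `q ^ c` divides the discriminant of `K`. `FewDivisors` says that all divisors of `g` which
satisfy these conditions are one or prime.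

**The abelian varieties.** Let `p` be a prime number, `q = p ^ a`, and let `π i` (`i` in a finite
set) be Weil numbers for `q` such that each power `(π i) ^ n`, `n ≥ 1`, generates a CM field `K i`,
and for each `K = K i` one of the following conditions holds (`IsCoreWeil`).

* The rational functions on `X` which change their sign under complex conjugation are an irreducible
  representation of the automorphisms of `ℂ` (`OddIrreducible`), for example because the core number
  of `K` is one.
* There is a core with `c` pairs of embeddings, and `c` is a prime number, or `c = [K : F]` for a
  subfield `F`, not totally real, such that the automorphisms of `ℂ` act doubly transitively on the
  extensions to `K` of an embedding of `F` (`PrimitiveCore`); and there is **no** subfield `F` with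
  `[K : F] = c`, not totally real, in which the norm `N` of `π i` is supersingular
  (`SupersingularNorm`; this means that `N ^ 2 / q ^ c` is a root of unity).

The condition on the norms in the second case is necessary and sufficient for the absence of
relations between the conjugates of `π i` (`NormCriteria`); it is satisfied if `c = 2`, if `c` is
odd and the slopes of `π i` have odd denominators (for example in the ordinary case), and if all
subfields `F` with `[K : F] = c` are totally real. There are no other conditions on `π i`, its
slopes, the decomposition of `p` in `K i`, the degree or the Galois group of `K i`. The fields `K i`
are pairwise independent (`PairwiseIndep`; no condition if there is only one field).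

**The question.** Let `x` be a point of the moduli space over a number field, and let `A_x` be
isogenous to `B ^ (r + 1) × C`, where `C` is an **arbitrary** abelian variety, which may be zero.
Let `γ` be a Frobenius element at **one** place of good reduction, the residue field having `p ^ a`
elements, such that

* the characteristic polynomial of `γ` on the Tate module `V = V_ℓ (B)` is the product of the
  minimal polynomials of the Weil numbers `π i` (`IsPolarised`; together with the Weil pairing and
  the semisimplicity theorem of Faltings),
* the products of the eigenvalues of `γ` on `W = V_ℓ (C)` are unrelated to the fields `K i`
  (`FormsUnrelated`, `UnrelatedTo`): a function `n` on the complex embeddings of `K i` with `n (conj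
  φ) = - n φ` which is invariant under all automorphisms of `ℂ` that fix a power of such a product
  is zero. This is so if for each embedding `ψ` of `K i` some automorphism which fixes a power of
  all eigenvalues is the complex conjugation on `ψ (K i)`: for instance, if powers of the
  eigenvalues lie in a field from which the `K i` are separated by prime numbers (see below). It is
  no condition if `C = 0`.

Let `y` run through varieties through `x` over which the abelian variety is isogenous to a product
`B_y ^ (r + 1) × C_y` (if `C = 0` and `r = 0` these are **all** varieties through `x`). Then `V` and
`W` are representations of the arithmetic fundamental group `G y` of `y`, and there is a
homomorphism `i y` from the Galois group `D y` of the residue field of `x` to `G y`. A Tate form of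
degree `m` at `x` (on `y`) is a form in `2 m` variables on `V ^ (r + 1) × W` that is multiplied by
the `m`-th power of the cyclotomic character `χ` by a subgroup of finite index of `D y` (of `G y`).
By definition (`IsGaloisSpecial`, as in `MP_09799c_ag.DegreeFourDecides` of the library) `x` is
`ℓ`-Galois special with respect to these `y` if for no `y` all Tate forms at `x` are Tate forms on
`y` (`SameGroup`); as the algebraic monodromy groups are reductive this means that the groups of `x`
and `y` are different.

**The theorem** (`ReducesTo`). **`x` is `ℓ`-Galois special if and only if, for each `y`, some
endomorphism of `B` does not extend to `B_y` or the algebraic monodromy groups of `C` at `x` and of
`C_y` are different.** The condition for `B` (`FormsExtend`) is formulated with bilinear forms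
instead of endomorphisms. If `C = 0` and `r = 0`, this answers Q1 for the point `x`: the
endomorphisms extend on the Shimura subvariety of PEL type through `x`, so that `x` is `ℓ`-Galois
special if and only if this variety is a point, that is, if `x` is a CM point. In general take for
`y` the products of the variety of PEL type of `B` with the point of `C`: so if `x` is `ℓ`-Galois
special then `B` is CM, and then also the point of `C` is `ℓ`-Galois special. Hence **Q1 for `x`
follows from Q1 for `C`** (these arguments are not formalized).

Part two (`AllCriteria`) contains the criteria: the cases (a), (b) and (c) above (`FieldCriteria`, `DoublyCriteria`),
the facts about the cores (`CoreFacts`) and about the norms (`NormCriteria`), the independence of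
the fields, and the condition on the eigenvalues. A prime number `ℓ` separates `K i` from a number
field `F` if `ℓ` divides the discriminant of `K i` but not the one of its maximal real subfield and
not the one of `F`. The fields `K i` are pairwise independent if any two of them are separated by a
prime number (in one direction). All nonzero elements of `F` are independent of the `K i`, in
particular unrelated to them, if all `K i` are separated from `F`. So for example, if `ℓ` divides
the discriminant of a CM field `K` and `ℓ ^ 2` does not, then the theorem holds for all Weil numbers
`π` in `K` with `ℚ(π ^ n) = K` for all `n`, and all varieties whose eigenvalues lie in fields of a
discriminant prime to `ℓ`.

**What was known.** The equivalent Mumford-Tate conjecture is known for abelian varieties of prime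
dimension (Tankeev, Ribet, Serre, Chi) and for generic Galois groups of one Frobenius polynomial
(Zarhin). In the library: the varieties with a Frobenius element of almost all slope types
(`TypicalFields`, whose machine is used), with absolutely irreducible odd functions
(`ArbitraryFactors`), or without type IV and local conditions (`ArbitraryCofactor`). New here are
the CM fields with primitive cores, in all dimensions, with a condition on the norms which is
necessary and sufficient.

**The proof.** It is sufficient to show for each field `K` that the function `w`, the slope of `φ
(π)` minus one half, on the set `X` is not orthogonal to a nonzero space of odd functions which is
stable under the automorphisms of `ℂ`. If the odd functions are irreducible this is clear. Let `r`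
be an element of such a space with integral values. By the sign changes one can cut `r` down; this
gives, by induction on the size of the support and on the index of the core, a relation which is
supported in one core. The automorphisms preserving the core act transitively on it. If it has `2 c`
elements with a prime number `c`, then a Sylow subgroup contains an element which has two orbits of
length `c` on the core, exchanged by the complex conjugation. Since the cyclotomic polynomial is
irreducible, either `w (τ φ) = w (τ φ')` for all `τ` with two different `φ`, `φ'` of the core, or
the sums of `w` over the translates of one orbit are zero, and the orbit consists of the extensions
of an embedding of a subfield `F` with `[K : F] = c`, which is not totally real. In the doubly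
transitive case the extensions of an embedding of `F` are one half of the core (a sign change moves
all of them or none), and an average over a stabilizer gives the same two alternatives. In the first
case `φ (π)` and `φ' (π)` have the same absolute values at all places of all conjugates, so they
differ by a root of unity, and a power of `π` does not generate `K`. In the second case the norm of
`π` in `F` is supersingular. Conversely a supersingular norm is a relation, by Kronecker's theorem.
For the cases (a), (b) and (c) one uses that a sign change is determined by the first cores which it
moves, so that `2 ^ v ≤ 2 ^ (g / c)`, and that for a triply transitive group either the odd
functions are irreducible or the signs are given by a character of the group, so that `K` contains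
an imaginary quadratic field. If the group is doubly transitive, let `V` be a space of odd functions
which is stable under the automorphisms, neither zero nor everything. The values of its reproducing
kernel at two embeddings in different pairs are `β` or `-β`, and `β ≠ 0`; the signs form a regular
two-graph on the `g` pairs, with the eigenvalues `r` on `V` and `-s` on the orthogonal space,
`r s = g - 1`, `(r + s) dim V = g s`. If `g` is odd then `r` or `s` is even, and a descent modulo two
shows that the nonzero functions in one of the two spaces have no zeros; by the maximum principle
this is also true if `r` or `s` is `1` or `-1`. So this space has dimension one, and the signs of its
functions give an imaginary quadratic subfield.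
-/

set_option autoImplicit false

namespace Pool.Agent.Results.MP_09799c_ag.SmallCoreFields

open NumberField Module Pool.Agent.H977R3.CM Pool.Agent.Y1.TS Pool.Agent.Y137.MV
  Pool.Agent.Q29.GS Pool.Agent.H298.Core

/-- **A point with the isogeny factors `B` and `C` is `ℓ`-Galois special if and only if on no variety
through it the endomorphisms of `B` extend and the algebraic monodromy group of `C` is the one at
the point, for all `B` with a Frobenius element whose Weil numbers lie in independent CM fields with
irreducible odd part or primitive core, and all unrelated `C`.** -/
theorem result :
    (∀ (p : ℕ) [Fact p.Prime] (a : ℕ), 0 < a → ∀ (I : Type) [Fintype I] (K : I → Type)
      [∀ i, Field (K i)] [∀ i, NumberField (K i)] [∀ i, IsCMField (K i)], PairwiseIndep K →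
      ∀ π : ∀ i, K i, (∀ i, IsCoreWeil p a (π i)) → ReducesTo (p := p) a K π) ∧
    AllCriteria :=
  ⟨fun _ _ _ ha _ _ _ _ _ _ hK _ hπ => reducesTo (split_of_angle
    (fun i => Pool.Agent.Y156.P.gen_one (hπ i).simple) (fun i => (hπ i).simple.weil)
    (angle_core ha hK hπ)), allCriteria_hold⟩

end Pool.Agent.Results.MP_09799c_ag.SmallCoreFields
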